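import Pool.Agent.W973.IP.Defs

set_option autoImplicit false

namespace Pool.Agent.W274.IP

open Pool.Agent.W973.IP MvPolynomial Topology Filter

theorem gop (h1 : S_DER) (h2 : S_COER) : S_GOP := by
  intro n P a hP
  rw [isOpen_iff_mem_nhds]
  rintro ⟨c₀, e₀⟩ ⟨hc0, he0, u, hu⟩
  simp only at hc0 he0 hu
  obtain ⟨B, hB⟩ := h2 n P a hP (e₀ / 2) (max (c₀ + 1) ‖u‖) (by positivity)
  have hcont : Continuous fun z : (ℝ × ℝ) × Vec n => G P a z.1.1 z.1.2 u z.2 :=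
    (h1 n P a).1.comp (f := fun z : (ℝ × ℝ) × Vec n => (z.1.1, z.1.2, u, z.2)) (by fun_prop)
  have hopen : IsOpen {z : (ℝ × ℝ) × Vec n | z.1.1 < G P a z.1.1 z.1.2 u z.2} :=
    isOpen_lt (by fun_prop) hcont
  obtain ⟨U, W, hU, hW, hsU, htW, hUW⟩ := generalized_tube_lemma
    (isCompact_singleton (x := ((c₀, e₀) : ℝ × ℝ))) (isCompact_closedBall (0 : Vec n) B) hopen (by
      rintro ⟨p, w⟩ ⟨hp, hw⟩
      have hp' : p = (c₀, e₀) := hp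
      subst hp'
      exact hu w)
  have hUn : U ∈ 𝓝 ((c₀, e₀) : ℝ × ℝ) := hU.mem_nhds (hsU rfl)
  have f1 : ∀ᶠ p : ℝ × ℝ in 𝓝 (c₀, e₀), 0 < p.1 :=
    (continuous_fst.tendsto (c₀, e₀)).eventually (lt_mem_nhds hc0)
  have f2 : ∀ᶠ p : ℝ × ℝ in 𝓝 (c₀, e₀), p.1 < c₀ + 1 :=
    (continuous_fst.tendsto (c₀, e₀)).eventually (gt_mem_nhds (by simp))
  have f3 : ∀ᶠ p : ℝ × ℝ in 𝓝 (c₀, e₀), e₀ / 2 < p.2 :=
    (continuous_snd.tendsto (c₀, e₀)).eventually (lt_mem_nhds (by simp only; linarith))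
  filter_upwards [hUn, f1, f2, f3] with p hpU hp1 hp2 hp3
  refine ⟨hp1, by linarith, u, fun w => ?_⟩
  by_cases hw : ‖w‖ ≤ B
  · exact hUW (Set.mk_mem_prod hpU (htW (by simpa using hw)))
  · by_contra hcon
    push Not at hcon
    apply hw
    have hK : p.1 ≤ max (c₀ + 1) ‖u‖ := hp2.le.trans (le_max_left _ _)
    exact hB p.1 p.2 u w hp1.le hK hp3.le (le_max_right _ _) (hcon.trans hK)

end Pool.Agent.W274.IP
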